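import Pool.Agent.Helper19.AAP.Core
import Pool.Agent.Helper19.AAT.Final

/-!
# AAP: almost all tuples, with a power saving (after Helper19/AAR/Final)
-/

open Polynomial

namespace Pool.Agent.Helper19.AAP

open Pool.Agent.Helper84.AA
open Pool.Agent.Helper19.AAT (NiceAt FineAt fine_count tuple_ncard)

/-- The sieve in the last coefficient, with the rate `c g ^ (-d)`. -/
def SieveP (q : ℕ) (d c : ℝ) (G : ℕ) : Prop :=
  ∀ g ≥ G, ∀ u ∈ preSet q g (g - 1), Delta q (X * u) ≠ 0 →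
    (101 / 100 : ℝ) ^ g ≤ (Jset q g u).ncard →
      (({t ∈ Jset q g u | ¬ NiceZ q g (X * u + C t)}.ncard : ℕ) : ℝ) ≤
        c * (g : ℝ) ^ (-d) * (Jset q g u).ncard

theorem exp_le_eight (s : ℕ) (hs : 4 ≤ s) : 2 * (s : ℝ) ^ 2 * Real.exp 1 ^ s ≤ 8 ^ s := by
  have he : Real.exp 1 < 2.7182818286 := Real.exp_one_lt_d9
  have he' : Real.exp 1 ≤ 11 / 4 := by linarith
  have he0 : (0 : ℝ) ≤ Real.exp 1 := (Real.exp_pos 1).le
  have h1 : Real.exp 1 ^ s ≤ (11 / 4 : ℝ) ^ s := pow_le_pow_left₀ he0 he' s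
  have h2 : ∀ s : ℕ, 4 ≤ s → 2 * (s : ℝ) ^ 2 * (11 / 4 : ℝ) ^ s ≤ 8 ^ s := by
    intro s hs
    induction s, hs using Nat.le_induction with
    | base => norm_num
    | succ s hs ih =>
      have h4 : (4 : ℝ) ≤ s := by exact_mod_cast hs
      have h5 : (0 : ℝ) < (11 / 4 : ℝ) ^ s := by positivity
      rw [pow_succ (11 / 4 : ℝ), pow_succ (8 : ℝ)]
      push_cast
      have h6 : ((s : ℝ) + 1) ^ 2 * (11 / 4) ≤ 8 * (s : ℝ) ^ 2 := by nlinarith
      nlinarith [mul_le_mul_of_nonneg_right h6 h5.le]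
  calc 2 * (s : ℝ) ^ 2 * Real.exp 1 ^ s ≤ 2 * (s : ℝ) ^ 2 * (11 / 4 : ℝ) ^ s :=
        mul_le_mul_of_nonneg_left h1 (by positivity)
    _ ≤ 8 ^ s := h2 s hs

/-- The primes of the criterion are larger than the dimensions. -/
theorem size_le {m : ℕ} (hm : 16 ≤ m) {x : ℝ} (hx : x ≤ Real.exp (√(m : ℝ))) :
    x + 1 ≤ 8 ^ (Nat.sqrt m + 1) / (m : ℝ) := by
  set s := Nat.sqrt m + 1 with hs
  have h4 : 4 ≤ Nat.sqrt m := by
    rw [Nat.le_sqrt]
    omega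
  have hs4 : 4 ≤ s := by omega
  have hmR : (0 : ℝ) < m := by exact_mod_cast (by omega : 0 < m)
  have hms : (m : ℝ) ≤ (s : ℝ) ^ 2 := by
    have h1 : m < s ^ 2 := by
      rw [hs]
      have := Nat.sqrt_lt_self (n := m) (by omega)
      have h2 := Nat.lt_succ_sqrt m
      rw [Nat.succ_eq_add_one] at h2
      nlinarith
    exact_mod_cast h1.le
  have hsq : √(m : ℝ) ≤ s := by
    rw [Real.sqrt_le_left (by positivity)]
    exact hms
  have h5 : Real.exp (√(m : ℝ)) ≤ Real.exp 1 ^ s := by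
    rw [← Real.exp_nat_mul, mul_one]
    exact Real.exp_le_exp.2 hsq
  have h6 : (1 : ℝ) ≤ Real.exp 1 ^ s := one_le_pow₀ (by
    have := Real.add_one_le_exp (1 : ℝ)
    linarith)
  rw [le_div_iff₀ hmR]
  calc (x + 1) * m ≤ (2 * Real.exp 1 ^ s) * (s : ℝ) ^ 2 :=
        mul_le_mul (by linarith) hms hmR.le (by positivity)
    _ = 2 * (s : ℝ) ^ 2 * Real.exp 1 ^ s := by ring
    _ ≤ 8 ^ s := exp_le_eight s hs4

theorem pairs_le (k : ℕ) : (k : ℝ) + k * k ≤ 8 * (4 / 3 : ℝ) ^ k := by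
  rcases Nat.lt_or_ge k 6 with h | h
  · interval_cases k <;> norm_num
  · induction k, h using Nat.le_induction with
    | base => norm_num
    | succ k hk ih =>
      have h6 : (6 : ℝ) ≤ k := by exact_mod_cast hk
      rw [pow_succ]
      push_cast
      nlinarith

/-- The bounds for one `g`. -/
theorem one_dim {q : ℕ} (hq : 16 ≤ q) {d c : ℝ} (hd1 : d ≤ 1) (hc : 0 < c) {G₀ : ℕ}
    (hS : SieveP q d c G₀) :
    ∃ G : ℕ, 16 ≤ G ∧ ∀ p : ℕ, p.Prime → ∀ g ≥ G,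
      (({h ∈ traceSet q g | ¬ (Irreducible h ∧ NiceZ q g h)}.ncard : ℕ) : ℝ) ≤
        (3 + c) * (g : ℝ) ^ (-d) * (traceSet q g).ncard ∧
      ((traceSet q g).ncard : ℝ) ≤
        3 * (({h ∈ traceSet q g | ¬ (p : ℤ) ∣ h.coeff 0}.ncard : ℕ) : ℝ) ∧
      ((g : ℝ) + 1) * (preSet q g (g - 1)).ncard ≤ (g : ℝ) ^ (-d) * (traceSet q g).ncard := by
  obtain ⟨G1, hG1⟩ := ratio1 hq
  obtain ⟨G2, hG2⟩ := ratio2 hq
  obtain ⟨G3, hG3⟩ := ratio3 hq
  have hlim := tendsto_self_mul_const_pow_of_lt_one (show (0 : ℝ) ≤ 98 / 100 by norm_num)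
    (show (98 / 100 : ℝ) < 1 by norm_num)
  obtain ⟨G5, hG5⟩ := Filter.eventually_atTop.1 (hlim.eventually (gt_mem_nhds
    (show (0 : ℝ) < 1 by norm_num)))
  have hlim2 : Filter.Tendsto (fun n : ℕ => (n : ℝ) ^ 2 * (98 / 101 : ℝ) ^ n) Filter.atTop
      (nhds 0) :=
    tendsto_pow_const_mul_const_pow_of_abs_lt_one 2 (by rw [abs_of_pos] <;> norm_num)
  obtain ⟨G6, hG6⟩ := Filter.eventually_atTop.1 (hlim2.eventually (gt_mem_nhds
    (show (0 : ℝ) < 1 / 2 by norm_num)))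
  refine ⟨max (max (max G1 G2) (max G3 G₀)) (max (max G5 16) G6), by simp, fun p hp g hg => ?_⟩
  have g1 : G1 ≤ g := le_trans (by simp) hg
  have g2 : G2 ≤ g := le_trans (by simp) hg
  have g3 : G3 ≤ g := le_trans (by simp) hg
  have g4 : G₀ ≤ g := le_trans (by simp) hg
  have g5 : G5 ≤ g := le_trans (by simp) hg
  have g6 : G6 ≤ g := le_trans (by simp) hg
  have hg3 : 16 ≤ g := le_trans (by simp) hg
  have hgR : (16 : ℝ) ≤ g := by exact_mod_cast hg3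
  have hg0 : (0 : ℝ) < g := by linarith
  have hθ0 : (0 : ℝ) < (98 / 100 : ℝ) ^ g := by positivity
  have hθ2 : (98 / 100 : ℝ) ^ g ≤ 1 / 12 := by nlinarith [hG5 g g5]
  have hinv : 1 / (g : ℝ) ≤ (g : ℝ) ^ (-d) := by
    rw [one_div, ← Real.rpow_neg_one]
    exact Real.rpow_le_rpow_of_exponent_le (by linarith) (by linarith)
  have hθ1 : (98 / 100 : ℝ) ^ g ≤ (g : ℝ) ^ (-d) := by
    refine le_trans ?_ hinv
    rw [le_div_iff₀ hg0]
    nlinarith [hG5 g g5]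
  obtain ⟨h1, h2⟩ := almost_core hq hp (by omega) (NiceZ q g) (η := c * (g : ℝ) ^ (-d))
    (by positivity) (hG1 g g1) (hG2 g g2) (hG3 g g3) (hS g g4) hθ2
  have hN0 : (0 : ℝ) ≤ (traceSet q g).ncard := Nat.cast_nonneg _
  refine ⟨?_, h2, ?_⟩
  · refine h1.trans (mul_le_mul_of_nonneg_right ?_ hN0)
    linarith
  · have h3 := hG1 g g1
    have h4 := hG6 g g6
    have h5 : (0 : ℝ) < (101 / 100 : ℝ) ^ g := by positivity
    have h6 : ((preSet q g (g - 1)).ncard : ℝ) ≤ (98 / 101 : ℝ) ^ g * (traceSet q g).ncard := by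
      have h7 : (98 / 101 : ℝ) ^ g = (98 / 100 : ℝ) ^ g / (101 / 100 : ℝ) ^ g := by
        rw [← div_pow]; norm_num
      rw [h7, div_mul_eq_mul_div, le_div_iff₀ h5, mul_comm]
      exact h3
    have h8 : ((g : ℝ) + 1) * (98 / 101 : ℝ) ^ g ≤ (g : ℝ) ^ (-d) := by
      refine le_trans ?_ hinv
      rw [le_div_iff₀ hg0]
      have h10 : (0 : ℝ) < (98 / 101 : ℝ) ^ g := by positivity
      have h11 : ((g : ℝ) + 1) * g ≤ 2 * (g : ℝ) ^ 2 := by nlinarith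
      calc ((g : ℝ) + 1) * (98 / 101 : ℝ) ^ g * g
          = (((g : ℝ) + 1) * g) * (98 / 101 : ℝ) ^ g := by ring
        _ ≤ (2 * (g : ℝ) ^ 2) * (98 / 101 : ℝ) ^ g := mul_le_mul_of_nonneg_right h11 h10.le
        _ ≤ 1 := by linarith
    calc ((g : ℝ) + 1) * (preSet q g (g - 1)).ncard
        ≤ ((g : ℝ) + 1) * ((98 / 101 : ℝ) ^ g * (traceSet q g).ncard) :=
          mul_le_mul_of_nonneg_left h6 (by positivity)
      _ = (((g : ℝ) + 1) * (98 / 101 : ℝ) ^ g) * (traceSet q g).ncard := by ring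
      _ ≤ (g : ℝ) ^ (-d) * (traceSet q g).ncard := mul_le_mul_of_nonneg_right h8 hN0

/-- The counting of the tuples, for any property which follows from the existence of the primes. -/
theorem almost_tuples_aux {q : ℕ} (hq : 16 ≤ q) {d c : ℝ} (hd : 0 < d) (hd1 : d ≤ 1) (hc : 0 < c)
    {G₀ : ℕ} (hS : SieveP q d c G₀) :
    ∃ G : ℕ, ∀ p : ℕ, p.Prime → ∀ (k : ℕ) (Q : (Fin k → ℤ[X]) → Prop),
      (∀ h : Fin k → ℤ[X], (∀ i, (h i).Monic) → (∀ i, 2 ≤ (h i).natDegree) →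
        (∀ i, Irreducible (h i)) →
        (∀ i, ∃ l, NiceAt q (h i) l ∧ ∀ j, j ≠ i → FineAt q (h j) l) → Q h) →
      ∀ m ≥ G, ∀ g : Fin k → ℕ, (∀ i, m ≤ g i ∧ (g i : ℝ) ≤ Real.exp (√(m : ℝ))) →
      (({h : Fin k → ℤ[X] | (∀ i, h i ∈ traceSet q (g i)) ∧ ¬ Q h}.ncard : ℕ) : ℝ) ≤
        8 * (5 + c) * 4 ^ k * (m : ℝ) ^ (-d) * (({h : Fin k → ℤ[X] | ∀ i, h i ∈ traceSet q (g i) ∧
          ¬ (p : ℤ) ∣ (h i).coeff 0}.ncard : ℕ) : ℝ) := by
  classical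
  obtain ⟨G, hG16, hG'⟩ := one_dim hq hd1 hc hS
  refine ⟨G, fun p hp k Q hQ m hm g hgm => ?_⟩
  have hm16 : 16 ≤ m := hG16.trans hm
  have hmR : (16 : ℝ) ≤ m := by exact_mod_cast hm16
  have hm0 : (0 : ℝ) < m := by linarith
  set δ : ℝ := (m : ℝ) ^ (-d) with hδd
  have hδ : 0 < δ := by positivity
  have hg : ∀ i, G ≤ g i := fun i => le_trans hm (hgm i).1
  have hδg : ∀ i, (g i : ℝ) ^ (-d) ≤ δ := by
    intro i
    have h1 : (m : ℝ) ≤ g i := by exact_mod_cast (hgm i).1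
    exact Real.rpow_le_rpow_of_nonpos hm0 h1 (by linarith)
  have hG2 : 2 ≤ G := by omega
  have hG : ∀ i, (({h ∈ traceSet q (g i) | ¬ (Irreducible h ∧ NiceZ q (g i) h)}.ncard : ℕ) : ℝ) ≤
        (3 + c) * δ * (traceSet q (g i)).ncard ∧
      ((traceSet q (g i)).ncard : ℝ) ≤
        3 * (({h ∈ traceSet q (g i) | ¬ (p : ℤ) ∣ h.coeff 0}.ncard : ℕ) : ℝ) ∧
      ((g i : ℝ) + 1) * (preSet q (g i) (g i - 1)).ncard ≤ δ * (traceSet q (g i)).ncard := by
    intro i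
    obtain ⟨h1, h2, h3⟩ := hG' p hp (g i) (hg i)
    have h5 := hδg i
    have h6 : (3 + c) * (g i : ℝ) ^ (-d) ≤ (3 + c) * δ := mul_le_mul_of_nonneg_left h5 (by positivity)
    exact ⟨h1.trans (mul_le_mul_of_nonneg_right h6 (Nat.cast_nonneg _)), h2,
      h3.trans (mul_le_mul_of_nonneg_right h5 (Nat.cast_nonneg _))⟩
  have hinv : 1 / (m : ℝ) ≤ δ := by
    rw [one_div, ← Real.rpow_neg_one]
    exact Real.rpow_le_rpow_of_exponent_le (by linarith) (by linarith)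
  let T : Fin k → Finset ℤ[X] := fun i => (traceSet_finite q (g i)).toFinset
  have hT : ∀ i h, h ∈ T i ↔ h ∈ traceSet q (g i) := fun i h => Set.Finite.mem_toFinset _
  have hTc : ∀ i, (traceSet q (g i)).ncard = (T i).card := fun i =>
    Set.ncard_eq_toFinset_card _ (traceSet_finite q (g i))
  let B : Fin k → ℤ[X] → Prop := fun i h => ¬ (Irreducible h ∧ NiceZ q (g i) h)
  let ℓ : Fin k → ℤ[X] → ℕ := fun i h => if hh : NiceZ q (g i) h then hh.choose else 0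
  have hℓ : ∀ i h, NiceZ q (g i) h → 8 ^ (Nat.sqrt (g i) + 1) < ℓ i h ∧ NiceAt q h (ℓ i h) := by
    intro i h hh
    have : ℓ i h = hh.choose := dif_pos hh
    rw [this]
    exact hh.choose_spec
  let D : Fin k → Fin k → ℤ[X] → ℤ[X] → Prop := fun i _ x y => ¬ FineAt q y (ℓ i x)
  have hsep : ∀ (i : Fin k) (Pr : ℤ[X] → Prop),
      {h ∈ traceSet q (g i) | Pr h} = {h | h ∈ T i ∧ Pr h} := by
    intro i Pr
    ext h
    exact and_congr_left fun _ => (hT i h).symm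
  have hB : ∀ i, (({y | y ∈ T i ∧ B i y}.ncard : ℕ) : ℝ) ≤ (5 + c) * δ * (T i).card := by
    intro i
    have h1 := (hG i).1
    rw [hsep, hTc] at h1
    refine h1.trans (mul_le_mul_of_nonneg_right ?_ (Nat.cast_nonneg _))
    exact mul_le_mul_of_nonneg_right (by linarith) hδ.le
  have hD : ∀ i j, i ≠ j → ∀ x ∈ T i, ¬ B i x →
      (({y | y ∈ T j ∧ D i j x y}.ncard : ℕ) : ℝ) ≤ (5 + c) * δ * (T j).card := by
    intro i j _ x _ hx
    have hnice : NiceZ q (g i) x := (not_not.1 hx).2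
    obtain ⟨hbig, hat⟩ := hℓ i x hnice
    have hgj : 2 ≤ g j := hG2.trans (hg j)
    have hsz := size_le hm16 (hgm j).2
    have hmi : Nat.sqrt m ≤ Nat.sqrt (g i) := Nat.sqrt_le_sqrt (hgm i).1
    have hbig2 : (8 : ℝ) ^ (Nat.sqrt m + 1) ≤ ℓ i x := by
      have h1 : 8 ^ (Nat.sqrt m + 1) ≤ ℓ i x :=
        le_trans (Nat.pow_le_pow_right (by norm_num) (by omega)) hbig.le
      exact_mod_cast h1
    have hℓpos : (0 : ℝ) < ℓ i x := lt_of_lt_of_le (by positivity) hbig2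
    have hsz2 : (g j : ℝ) + 1 ≤ ℓ i x / m := hsz.trans (div_le_div_of_nonneg_right hbig2 hm0.le)
    have hlg : g j < ℓ i x := by
      have h1 : (ℓ i x : ℝ) / m ≤ ℓ i x := div_le_self hℓpos.le (by linarith)
      have h2 : (g j : ℝ) < ℓ i x := by linarith
      exact_mod_cast h2
    have h1 := fine_count (q := q) (g := g j) (by omega) hat.1 hlg
    rw [hsep, hTc] at h1
    refine h1.trans ?_
    obtain ⟨_, _, h2⟩ := hG j
    rw [hTc] at h2
    have hc0 : (0 : ℝ) ≤ (T j).card := Nat.cast_nonneg _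
    have h4 : ((g j : ℝ) + 1) / ℓ i x ≤ δ := by
      refine le_trans ?_ hinv
      rw [div_le_iff₀ hℓpos]
      calc (g j : ℝ) + 1 ≤ ℓ i x / m := hsz2
        _ = 1 / (m : ℝ) * ℓ i x := by ring
    calc ((g j : ℝ) + 1) * ((T j).card / ℓ i x + (preSet q (g j) (g j - 1)).ncard)
        = ((g j : ℝ) + 1) / ℓ i x * (T j).card +
          ((g j : ℝ) + 1) * (preSet q (g j) (g j - 1)).ncard := by ring
      _ ≤ δ * (T j).card + δ * (T j).card :=
          add_le_add (mul_le_mul_of_nonneg_right h4 hc0) h2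
      _ = 2 * δ * (T j).card := by ring
      _ ≤ (5 + c) * δ * (T j).card := by
          refine mul_le_mul_of_nonneg_right ?_ hc0
          exact mul_le_mul_of_nonneg_right (by linarith) hδ.le
  have hmain := tuple_ncard T B D (ε := (5 + c) * δ) (by positivity) hB hD
  -- the bad tuples
  have hbad : (({h : Fin k → ℤ[X] | (∀ i, h i ∈ traceSet q (g i)) ∧ ¬ Q h}.ncard : ℕ) : ℝ) ≤
      (({x : Fin k → ℤ[X] | (∀ i, x i ∈ T i) ∧ ((∃ i, B i (x i)) ∨
        ∃ i j, i ≠ j ∧ ¬ B i (x i) ∧ D i j (x i) (x j))}.ncard : ℕ) : ℝ) := by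
    have h1 : {h : Fin k → ℤ[X] | (∀ i, h i ∈ traceSet q (g i)) ∧ ¬ Q h} ⊆
        {x : Fin k → ℤ[X] | (∀ i, x i ∈ T i) ∧ ((∃ i, B i (x i)) ∨
          ∃ i j, i ≠ j ∧ ¬ B i (x i) ∧ D i j (x i) (x j))} := by
      rintro h ⟨hh, hbad⟩
      refine ⟨fun i => (hT i _).2 (hh i), ?_⟩
      by_contra hcon
      rw [not_or, not_exists] at hcon
      obtain ⟨hc1, hc2⟩ := hcon
      apply hbad
      have hc1' : ∀ i, Irreducible (h i) ∧ NiceZ q (g i) (h i) := fun i => not_not.1 (hc1 i)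
      refine hQ h (fun i => (hh i).1) ?_ (fun i => (hc1' i).1) ?_
      · intro i
        rw [(hh i).2.1]
        exact hG2.trans (hg i)
      · intro i
        refine ⟨ℓ i (h i), (hℓ i (h i) (hc1' i).2).2, fun j hj => ?_⟩
        by_contra hf
        exact hc2 ⟨i, j, hj.symm, hc1 i, hf⟩
    have hfin : {x : Fin k → ℤ[X] | (∀ i, x i ∈ T i) ∧ ((∃ i, B i (x i)) ∨
          ∃ i j, i ≠ j ∧ ¬ B i (x i) ∧ D i j (x i) (x j))}.Finite := by
      refine (Finset.finite_toSet (Fintype.piFinset T)).subset fun x hx => ?_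
      rw [Finset.mem_coe, Fintype.mem_piFinset]
      exact hx.1
    exact_mod_cast Set.ncard_le_ncard h1 hfin
  -- the ordinary tuples
  let O : Fin k → ℝ := fun i => (({h ∈ traceSet q (g i) | ¬ (p : ℤ) ∣ h.coeff 0}.ncard : ℕ) : ℝ)
  have hord : ((({h : Fin k → ℤ[X] | ∀ i, h i ∈ traceSet q (g i) ∧
      ¬ (p : ℤ) ∣ (h i).coeff 0}.ncard : ℕ)) : ℝ) = ∏ i, O i := by
    have hfO : ∀ i, {h ∈ traceSet q (g i) | ¬ (p : ℤ) ∣ h.coeff 0}.Finite := fun i =>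
      (traceSet_finite q (g i)).subset fun h hh => hh.1
    have h1 : {h : Fin k → ℤ[X] | ∀ i, h i ∈ traceSet q (g i) ∧ ¬ (p : ℤ) ∣ (h i).coeff 0} =
        ↑(Fintype.piFinset fun i => (hfO i).toFinset) := by
      ext h
      rw [Finset.mem_coe, Fintype.mem_piFinset]
      exact forall_congr' fun i => (Set.Finite.mem_toFinset (hfO i)).symm
    rw [h1, Set.ncard_coe_finset, Fintype.card_piFinset]
    push_cast
    refine Finset.prod_congr rfl fun i _ => ?_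
    show _ = (({h ∈ traceSet q (g i) | ¬ (p : ℤ) ∣ h.coeff 0}.ncard : ℕ) : ℝ)
    rw [Set.ncard_eq_toFinset_card _ (hfO i)]
  have hprod : ∏ i, ((T i).card : ℝ) ≤ 3 ^ k * ∏ i, O i := by
    have h1 : ∀ i ∈ (Finset.univ : Finset (Fin k)), ((T i).card : ℝ) ≤ 3 * O i := by
      intro i _
      have h2 := (hG i).2.1
      rwa [hTc] at h2
    refine (Finset.prod_le_prod (fun i _ => Nat.cast_nonneg _) h1).trans (le_of_eq ?_)
    rw [Finset.prod_mul_distrib, Finset.prod_const, Finset.card_univ, Fintype.card_fin]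
  rw [hord]
  have hO0 : 0 ≤ ∏ i, O i := Finset.prod_nonneg fun i _ => Nat.cast_nonneg _
  calc (({h : Fin k → ℤ[X] | (∀ i, h i ∈ traceSet q (g i)) ∧ ¬ Q h}.ncard : ℕ) : ℝ)
      ≤ ((k : ℝ) + k * k) * ((5 + c) * δ) * ∏ i, ((T i).card : ℝ) := hbad.trans hmain
    _ ≤ ((k : ℝ) + k * k) * ((5 + c) * δ) * (3 ^ k * ∏ i, O i) :=
        mul_le_mul_of_nonneg_left hprod (by positivity)
    _ ≤ (8 * (4 / 3 : ℝ) ^ k) * ((5 + c) * δ) * (3 ^ k * ∏ i, O i) := by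
        refine mul_le_mul_of_nonneg_right (mul_le_mul_of_nonneg_right (pairs_le k) (by positivity))
          (by positivity)
    _ = 8 * (5 + c) * ((4 / 3 : ℝ) ^ k * 3 ^ k) * δ * ∏ i, O i := by ring
    _ = 8 * (5 + c) * 4 ^ k * δ * ∏ i, O i := by
        rw [← mul_pow]
        norm_num

end Pool.Agent.Helper19.AAP
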