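import Pool.Agent.Helper19.AAT.Big

/-!
# AAP: the criterion with a large prime
-/

open Polynomial

namespace Pool.Agent.Helper19.AAP

open Pool.Agent.Helper19.AAT (NiceAt)

/-- The criterion with a prime larger than `8 ^ √g`. -/
def NiceZ (q g : ℕ) (h : ℤ[X]) : Prop := ∃ l : ℕ, 8 ^ (Nat.sqrt g + 1) < l ∧ NiceAt q h l

end Pool.Agent.Helper19.AAP
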