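import Pool.Agent.Helper19.AAP.Tuples
import Pool.Agent.Helper19.AAR.Good

/-!
# AAP: almost all tuples, relative version, with a power saving
-/

open Polynomial

namespace Pool.Agent.Helper19.AAP

open Pool.Agent.Helper84.AA
open Pool.Agent.Helper19.AAT
open Pool.Agent.Helper19.AAR (GoodR goodR_of)

theorem almost_power {q : ℕ} (hq : 16 ≤ q)
    (hS : ∃ d : ℝ, 0 < d ∧ ∃ c : ℝ, 0 < c ∧ ∃ G : ℕ, SieveP q d c G) :
    ∃ d : ℝ, 0 < d ∧ ∃ c : ℝ, 0 < c ∧ ∃ G : ℕ, ∀ (p k : ℕ), p.Prime → ∀ m ≥ G,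
      ∀ g : Fin k → ℕ, (∀ i, m ≤ g i ∧ (g i : ℝ) ≤ Real.exp (√(m : ℝ))) →
      (({h : Fin k → ℤ[X] | (∀ i, h i ∈ traceSet q (g i)) ∧ ¬ GoodR q h}.ncard : ℕ) : ℝ) ≤
        c * 4 ^ k / (m : ℝ) ^ d * (({h : Fin k → ℤ[X] | ∀ i, h i ∈ traceSet q (g i) ∧
          ¬ (p : ℤ) ∣ (h i).coeff 0}.ncard : ℕ) : ℝ) := by
  obtain ⟨d, hd, c, hc, G, hG⟩ := hS
  have hd' : 0 < min d 1 := lt_min hd one_pos
  have hG' : SieveP q (min d 1) c (max G 1) := by
    intro g hg u hu hD hM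
    have hg1 : (1 : ℝ) ≤ g := by exact_mod_cast le_trans (le_max_right _ _) hg
    refine (hG g (le_trans (le_max_left _ _) hg) u hu hD hM).trans ?_
    refine mul_le_mul_of_nonneg_right (mul_le_mul_of_nonneg_left ?_ hc.le) (Nat.cast_nonneg _)
    exact Real.rpow_le_rpow_of_exponent_le hg1 (neg_le_neg (min_le_left _ _))
  obtain ⟨G', h⟩ := almost_tuples_aux hq hd' (min_le_right _ _) hc hG'
  refine ⟨min d 1, hd', 8 * (5 + c), by positivity, max G' 1, fun p k hp m hm g hg => ?_⟩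
  have h1 := h p hp k (GoodR q) (fun h h1 h2 h3 h4 => goodR_of (by omega) h h1 h2 h3 h4) m
    (le_trans (le_max_left _ _) hm) g hg
  have hm1 : (0 : ℝ) < m := by exact_mod_cast le_trans (le_max_right _ _) hm
  refine h1.trans (le_of_eq ?_)
  rw [Real.rpow_neg hm1.le]
  ring

end Pool.Agent.Helper19.AAP
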