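import Pool.Agent.Helper19.AAP.Final
import Pool.Agent.Helper86.PW.Sieve

/-!
# AAP: the final theorem
-/

open Polynomial

namespace Pool.Agent.Helper19.AAP

open Pool.Agent.Helper84.AA
open Pool.Agent.Helper19.AAR (GoodR)

theorem almost_relative_power {q : ℕ} (hq : 16 ≤ q) :
    ∃ d : ℝ, 0 < d ∧ ∃ c : ℝ, 0 < c ∧ ∃ G : ℕ, ∀ (p k : ℕ), p.Prime → ∀ m ≥ G,
      ∀ g : Fin k → ℕ, (∀ i, m ≤ g i ∧ (g i : ℝ) ≤ Real.exp (√(m : ℝ))) →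
      (({h : Fin k → ℤ[X] | (∀ i, h i ∈ traceSet q (g i)) ∧ ¬ GoodR q h}.ncard : ℕ) : ℝ) ≤
        c * 4 ^ k / (m : ℝ) ^ d * (({h : Fin k → ℤ[X] | ∀ i, h i ∈ traceSet q (g i) ∧
          ¬ (p : ℤ) ∣ (h i).coeff 0}.ncard : ℕ) : ℝ) :=
  almost_power hq (Pool.Agent.Helper86.PW.sieve_pow (by omega))

end Pool.Agent.Helper19.AAP
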